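import Pool.Agent.helper67GM.Main

/-!
# Geometric Manin's Conjecture fails over every algebraically closed field of characteristic zero that
# is not algebraic over the rational numbers

Let `𝕜` be an algebraically closed field of characteristic zero and `lam ∈ 𝕜`, `lam ≠ 0, 1`. Let `B` be
the elliptic curve `y ^ 2 = x (x - 1) (x - lam)`, `K = KB 𝕜 lam` its function field, `B' → B` the étale
double cover given by `√x`, `F` the del Pezzo surface `w ^ 2 = g 0 ^ 4 + g 1 ^ 4 + g 2 ^ 4` of degree
two and `π : X = (B' × F) / (ℤ / 2) → B`, where `ℤ / 2` acts on `F` by `w ↦ - w`. This is a smooth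
fibration with the fibre `F` and with a generic fibre of Picard rank one, so the conjecture predicts
that `N_q(d) / q ^ d` converges to a positive number for every `q > 1`.

The sections of `π` are the points `(g, h)` of the surface `x h ^ 2 = g 0 ^ 4 + g 1 ^ 4 + g 2 ^ 4` over
`K`, up to `(f g, f ^ 2 h)`, and the number `- K_{X/B} . C` of a section is the height `ht 𝕜 g`. By the
first part of the theorem the sections of height `d` are the orbits of the multiplicative group on
`cone x y d`, a locally closed subset of an affine space over `𝕜`, so the dimension of the component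
of the space of sections that belongs to the component `M` of the cone is `dimA M - 1`.

The library contains this theorem for `𝕜 = ℂ` and `lam` transcendental over `ℚ`. Its proof uses
generic points with complex coordinates, that is, the infinite transcendence degree of the complex
numbers; here the generic points live over an extension of `𝕜`.
-/

set_option autoImplicit false

namespace Pool.Agent.Results.MP_8ae0c1_ag.EveryClosedField

open Pool.Agent.Y166.DP Pool.Agent.Q35.DP Pool.Agent.H67GM

theorem result (𝕜 : Type) [Field 𝕜] [IsAlgClosed 𝕜] [CharZero 𝕜] (lam : 𝕜) (h0 : lam ≠ 0)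
    (h1 : lam ≠ 1) :
    -- the sections of height `d` are represented by the points of the cone, uniquely up to scalars
    (∀ (d : ℕ) (g : Fin 3 → KB 𝕜 lam) (h : KB 𝕜 lam), g ≠ 0 →
      xB 𝕜 lam * h ^ 2 = quart g → ht 𝕜 g = d →
      (∃ c : Idx d → 𝕜, c ∈ cone (xB 𝕜 lam) (yB 𝕜 lam) d ∧ Repr (xB 𝕜 lam) (yB 𝕜 lam) c g h) ∧
      ∀ c c' : Idx d → 𝕜, Repr (xB 𝕜 lam) (yB 𝕜 lam) c g h → Repr (xB 𝕜 lam) (yB 𝕜 lam) c' g h →
        ∃ t : 𝕜, t ≠ 0 ∧ (∀ p, c' (.inl p) = t * c (.inl p)) ∧
          ∀ p, c' (.inr p) = t ^ 2 * c (.inr p)) ∧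
    -- even height: a Manin component larger than expected
    (∀ m : ℕ, 2 ≤ m → ∃ M : Set (Idx (2 * m) → 𝕜),
      IsComp (cone (xB 𝕜 lam) (yB 𝕜 lam) (2 * m)) M ∧ 2 * m + 1 ≤ dimA M - 1 ∧
        ¬ InSurface (xB 𝕜 lam) (yB 𝕜 lam) M) ∧
    (Transcendental ℚ lam →
      -- odd prime height: no component is larger than expected
      (∀ p : ℕ, p.Prime → Odd p → ∀ M : Set (Idx p → 𝕜),
        IsComp (cone (xB 𝕜 lam) (yB 𝕜 lam) p) M → dimA M - 1 ≤ p) ∧
      -- the conjectured asymptotic formula fails for all large `q`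
      ∀ A : (d : ℕ) → Set (Set (Idx d → 𝕜)),
        (∀ d, ∀ M ∈ A d, InSurface (xB 𝕜 lam) (yB 𝕜 lam) M) →
        ∃ Q : ℝ, 1 ≤ Q ∧ ∀ q : ℝ, Q < q →
          ¬ ∃ C : ℝ, 0 < C ∧ Filter.Tendsto
            (fun d : ℕ => Pool.Agent.H67GM.NN (xB 𝕜 lam) (yB 𝕜 lam) A q d / ENNReal.ofReal q ^ d)
            Filter.atTop (nhds (ENNReal.ofReal C))) :=
  Pool.Agent.H67GM.final 𝕜 lam h0 h1

end Pool.Agent.Results.MP_8ae0c1_ag.EveryClosedField
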